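import Pool.Agent.X76.PawGraph

set_option autoImplicit false

namespace Pool.Agent.Results.MP_d44e62_co.PawTwoNotThree

open Pool.Agent.X76.PawGraph

/-- For every `N ≥ 3` there are finite connected graphs `F`, `G` (`F` is the paw) with at least two
vertices such that `F ≍_2 G` but `F ≍_n G` fails for every `n` with `3 ≤ n ≤ N`. -/
theorem result (N : ℕ) (hN : 3 ≤ N) :
    ∃ (U V : Type) (_ : Finite U) (_ : Finite V) (_ : Nontrivial U) (_ : Nontrivial V)
      (F : SimpleGraph U) (G : SimpleGraph V), F.Connected ∧ G.Connected ∧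
      RelatedN 2 F G ∧ ∀ n, 3 ≤ n → n ≤ N → ¬ RelatedN n F G :=
  ⟨Fin 4, _, inferInstance, inferInstance, inferInstance, ⟨.inl (x0 N), .inr 0, Sum.inl_ne_inr⟩,
    paw, GN N, paw_connected, GG_connected _ _, related_two N (by omega),
    fun n h3 hn => not_related N n hn h3⟩

end Pool.Agent.Results.MP_d44e62_co.PawTwoNotThree
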